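import Pool.Agent.Lib.MP_17a322_nt.FI.Def

/-!
The determinants of the family of polynomials in base `u`.
-/

namespace Pool.Agent.Lib.MP_17a322_nt.FI

open MvPolynomial
open Pool.Agent.Lib.MP_17a322_nt.GQ

/-- The chain rule. -/
theorem pderiv_aeval_sum {σ τ R : Type*} [CommRing R] [Fintype σ] (f : σ → MvPolynomial τ R) (b : τ)
    (g : MvPolynomial σ R) : pderiv b (aeval f g) = ∑ l, aeval f (pderiv l g) * pderiv b (f l) := by
  classical
  induction g using MvPolynomial.induction_on with
  | C a => simp
  | add p q hp hq => simp only [map_add, hp, hq, add_mul, Finset.sum_add_distrib]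
  | mul_X p i hp =>
    have h1 : ∀ l, aeval f (pderiv l (p * X i)) * pderiv b (f l) =
        (if l = i then aeval f p * pderiv b (f i) else 0) + f i * (aeval f (pderiv l p) * pderiv b (f l)) := by
      intro l
      rw [Derivation.leibniz, pderiv_X, map_add]
      simp only [smul_eq_mul, map_mul, aeval_X]
      by_cases hl : l = i
      · subst hl
        simp only [Pi.single_eq_same, map_one, mul_one, if_true]
        ring
      · rw [if_neg hl, Pi.single_eq_of_ne (Ne.symm hl), map_zero]
        ring
    rw [Finset.sum_congr rfl fun l _ => h1 l, Finset.sum_add_distrib, ← Finset.mul_sum, ← hp, Finset.sum_ite_eq',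
      if_pos (Finset.mem_univ i), map_mul, aeval_X, Derivation.leibniz]
    simp only [smul_eq_mul]

variable {n k : ℕ}

theorem fam_inr (t : Fin (n + 1) × Fin (n + 1) × Fin (n + 1)) :
    fam (n := n) (k := k) (Sum.inr t) = aeval XX (sqForm t) := by
  rw [sqForm, map_sub, map_add, map_mul, map_mul, map_pow, aeval_X, aeval_X, aeval_X, aeval_X]
  rfl

/-- The values of the `XX_i`. -/
noncomputable def xv (z : Var n k → ℤ) (i : Fin (n + 1)) : ℤ := eval z (XX i)

theorem xv_eq (z : Var n k → ℤ) (i : Fin (n + 1)) :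
    xv z i = ∑ j : Fin (k + 1), z (some (i, j)) * z none ^ (j : ℕ) := by
  rw [xv, XX, map_sum]
  exact Finset.sum_congr rfl fun j _ => by rw [map_mul, map_pow, eval_X, eval_X]

theorem eval_aeval_XX (z : Var n k → ℤ) (g : MvPolynomial (Fin (n + 1)) ℤ) :
    eval z (aeval XX g) = eval (xv z) g := by
  induction g using MvPolynomial.induction_on with
  | C a => simp
  | add p q hp hq => rw [map_add, map_add, map_add, hp, hq]
  | mul_X p i hp => rw [map_mul, map_mul, map_mul, hp, aeval_X, eval_X, xv]

theorem eval_fam_inr (z : Var n k → ℤ) (t : Fin (n + 1) × Fin (n + 1) × Fin (n + 1)) :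
    eval z (fam (Sum.inr t)) = eval (xv z) (sqForm t) := by
  rw [fam_inr, eval_aeval_XX]

theorem eval_fam_inl (z : Var n k → ℤ) (a : Var n k) : eval z (fam (Sum.inl a)) = z a := by
  rw [fam, Sum.elim_inl, eval_X]

theorem pderiv_XX (z : Var n k → ℤ) (i l : Fin (n + 1)) (j : Fin (k + 1)) :
    eval z (pderiv (some (i, j)) (XX l : MvPolynomial (Var n k) ℤ)) = if l = i then z none ^ (j : ℕ) else 0 := by
  have h1 : ∀ j' : Fin (k + 1), eval z (pderiv (some (i, j) : Var n k)
      (X (some (l, j')) * X none ^ (j' : ℕ) : MvPolynomial (Var n k) ℤ)) =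
      if l = i ∧ j' = j then z none ^ (j' : ℕ) else 0 := by
    intro j'
    rw [Derivation.leibniz, Derivation.leibniz_pow, pderiv_X_of_ne (by simp), smul_zero, smul_zero, smul_zero,
      zero_add, smul_eq_mul, map_mul, map_pow, eval_X]
    by_cases h : l = i ∧ j' = j
    · obtain ⟨rfl, rfl⟩ := h
      rw [if_pos ⟨rfl, rfl⟩, pderiv_X_self, map_one, mul_one]
    · rw [if_neg h, pderiv_X_of_ne, map_zero, mul_zero]
      intro h2
      apply h
      rw [Option.some_inj, Prod.mk.injEq] at h2
      exact h2
  rw [XX, map_sum, map_sum, Finset.sum_congr rfl fun j' _ => h1 j']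
  by_cases hl : l = i
  · subst hl
    simp
  · rw [if_neg hl]
    exact Finset.sum_eq_zero fun j _ => if_neg fun h => hl h.1

/-- All variables except the digits with the number `j`, and forms. -/
def sOf (j : Fin (k + 1)) (t : Fin (n + 1) → Fin (n + 1) × Fin (n + 1) × Fin (n + 1)) :
    Var n k → Var n k ⊕ (Fin (n + 1) × Fin (n + 1) × Fin (n + 1))
  | none => Sum.inl none
  | some (i, o) => if o = j then Sum.inr (t i) else Sum.inl (some (i, o))

theorem sOf_some (j : Fin (k + 1)) (t : Fin (n + 1) → Fin (n + 1) × Fin (n + 1) × Fin (n + 1)) (i : Fin (n + 1))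
    (o : Fin (k + 1)) : sOf j t (some (i, o)) = if o = j then Sum.inr (t i) else Sum.inl (some (i, o)) := rfl

theorem sOf_self (j : Fin (k + 1)) (t : Fin (n + 1) → Fin (n + 1) × Fin (n + 1) × Fin (n + 1)) (i : Fin (n + 1)) :
    sOf j t (some (i, j)) = Sum.inr (t i) := by
  rw [sOf_some, if_pos rfl]

theorem sOf_ne (j : Fin (k + 1)) (t : Fin (n + 1) → Fin (n + 1) × Fin (n + 1) × Fin (n + 1)) (a : Var n k)
    (ha : ¬ ∃ i, a = some (i, j)) : sOf j t a = Sum.inl a := by
  cases a with
  | none => rfl
  | some p =>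
    obtain ⟨i, o⟩ := p
    rw [sOf_some, if_neg]
    rintro rfl
    exact ha ⟨i, rfl⟩

theorem det_sOf (z : Var n k → ℤ) (j : Fin (k + 1)) (t : Fin (n + 1) → Fin (n + 1) × Fin (n + 1) × Fin (n + 1)) :
    (Matrix.of fun a b => eval z (pderiv b (fam (sOf j t a)))).det =
      (z none ^ (j : ℕ)) ^ (n + 1) * (Matrix.of fun i l => eval (xv z) (pderiv l (sqForm (t i)))).det := by
  classical
  rw [Matrix.twoBlockTriangular_det' _ fun a => ¬ ∃ i, a = some (i, j)]
  · have h1 : (Matrix.toSquareBlockProp (Matrix.of fun a b => eval z (pderiv b (fam (sOf j t a))))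
        fun a => ¬ ∃ i, a = some (i, j)) = 1 := by
      ext a b
      rw [Matrix.toSquareBlockProp_def, Matrix.of_apply, Matrix.of_apply, sOf_ne j t a.1 a.2, fam, Sum.elim_inl,
        Matrix.one_apply]
      by_cases hab : a = b
      · subst hab
        rw [pderiv_X_self, map_one, if_pos rfl]
      · rw [if_neg hab, pderiv_X_of_ne, map_zero]
        intro h
        exact hab (Subtype.ext h)
    rw [h1, Matrix.det_one, one_mul]
    obtain ⟨e, he⟩ : ∃ e : Fin (n + 1) ≃ {a : Var n k // ¬ ¬ ∃ i, a = some (i, j)}, ∀ i, (e i).1 = some (i, j) := by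
      refine ⟨Equiv.ofBijective (fun i => ⟨some (i, j), fun h => h ⟨i, rfl⟩⟩) ⟨fun i j hij => ?_, fun a => ?_⟩,
        fun i => rfl⟩
      · rw [Subtype.mk.injEq, Option.some_inj, Prod.mk.injEq] at hij
        exact hij.1
      · obtain ⟨i, hi⟩ := not_not.1 a.2
        exact ⟨i, Subtype.ext hi.symm⟩
    rw [← Matrix.det_submatrix_equiv_self e]
    have h2 : ((Matrix.toSquareBlockProp (Matrix.of fun a b => eval z (pderiv b (fam (sOf j t a))))
        fun a => ¬ ¬ ∃ i, a = some (i, j)).submatrix e e) =
        (z none ^ (j : ℕ)) • (Matrix.of fun i l => eval (xv z) (pderiv l (sqForm (t i)))) := by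
      ext i l
      rw [Matrix.submatrix_apply, Matrix.toSquareBlockProp_def, Matrix.of_apply, Matrix.of_apply, Matrix.smul_apply,
        Matrix.of_apply, he, he, sOf_self, fam_inr, pderiv_aeval_sum, map_sum]
      simp only [map_mul, pderiv_XX, mul_ite, mul_zero]
      rw [Finset.sum_ite_eq', if_pos (Finset.mem_univ l), eval_aeval_XX, mul_comm, smul_eq_mul]
    rw [h2, Matrix.det_smul, Fintype.card_fin]
  · intro a ha b hb
    rw [not_not] at hb
    rw [Matrix.of_apply, sOf_ne j t a ha, fam, Sum.elim_inl, pderiv_X_of_ne, map_zero]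
    rintro rfl
    exact ha hb

/-- The two determinants. -/
theorem famDet_sOf (z : Var n k → ℤ) (j : Fin (k + 1)) (t : Fin (n + 1) → Fin (n + 1) × Fin (n + 1) × Fin (n + 1)) :
    famDet z (sOf j t) = (z none ^ (j : ℕ)) ^ (n + 1) * (∏ i, z (some (i, j))) * sqDet (xv z) t := by
  classical
  rw [famDet, det_sOf, sqDet]
  have h1 : ∏ a ∈ (Finset.univ.image (sOf j t))ᶜ, eval z (fam a) =
      (∏ i, z (some (i, j))) * ∏ a ∈ (Finset.univ.image t)ᶜ, eval (xv z) (sqForm a) := by
    have h2 : (Finset.univ.image (sOf j t))ᶜ = ((Finset.univ.image fun i => (some (i, j) : Var n k)).disjSum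
        (Finset.univ.image t)ᶜ) := by
      ext a
      cases a with
      | inl a =>
        rw [Finset.inl_mem_disjSum, Finset.mem_compl, Finset.mem_image, Finset.mem_image]
        constructor
        · intro h
          by_contra h3
          apply h
          refine ⟨a, Finset.mem_univ _, sOf_ne j t a ?_⟩
          rintro ⟨i, rfl⟩
          exact h3 ⟨i, Finset.mem_univ _, rfl⟩
        · rintro ⟨i, -, rfl⟩ ⟨b, -, hb⟩
          by_cases h4 : ∃ i, b = some (i, j)
          · obtain ⟨l, rfl⟩ := h4
            rw [sOf_self] at hb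
            exact Sum.inr_ne_inl hb
          · rw [sOf_ne j t b h4] at hb
            exact h4 ⟨i, Sum.inl_injective hb⟩
      | inr a =>
        rw [Finset.inr_mem_disjSum, Finset.mem_compl, Finset.mem_compl, Finset.mem_image, Finset.mem_image, not_iff_not]
        constructor
        · rintro ⟨b, -, hb⟩
          by_cases h4 : ∃ i, b = some (i, j)
          · obtain ⟨l, rfl⟩ := h4
            rw [sOf_self] at hb
            exact ⟨l, Finset.mem_univ _, Sum.inr_injective hb⟩
          · rw [sOf_ne j t b h4] at hb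
            exact absurd hb Sum.inl_ne_inr
        · rintro ⟨l, -, rfl⟩
          exact ⟨some (l, j), Finset.mem_univ _, sOf_self j t l⟩
    rw [h2, Finset.prod_disjSum]
    congr 1
    · rw [Finset.prod_image]
      · exact Finset.prod_congr rfl fun i _ => eval_fam_inl _ _
      · intro i _ j _ hij
        rw [Option.some_inj, Prod.mk.injEq] at hij
        exact hij.1
    · exact Finset.prod_congr rfl fun a _ => eval_fam_inr _ _
  rw [h1]
  ring

end Pool.Agent.Lib.MP_17a322_nt.FI
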