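import Pool.Agent.Lib.MP_17a322_nt.FI.P
import Pool.Agent.Lib.MP_17a322_nt.GQ.SqA

/-!
The inequality with a fixed exponent implies the explicit inequality with exponents `ε`.
-/

namespace Pool.Agent.Lib.MP_17a322_nt.FI

open MvPolynomial
open Pool.Agent.Lib.MP_17a322_nt.GQ

/-- The radical. -/
def rad (N : ℕ) : ℕ := ∏ p ∈ N.primeFactors, p

theorem one_le_rad (N : ℕ) : 1 ≤ rad N :=
  Finset.one_le_prod' fun _ hp => (Nat.prime_of_mem_primeFactors hp).one_lt.le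

theorem rad_le {N : ℕ} (hN : N ≠ 0) : rad N ≤ N := Nat.le_of_dvd (Nat.pos_of_ne_zero hN) (Nat.prod_primeFactors_dvd N)

theorem rad_mul_le {a b : ℕ} (ha : a ≠ 0) (hb : b ≠ 0) : rad (a * b) ≤ rad a * rad b := by
  unfold rad
  rw [Nat.primeFactors_mul ha hb]
  have h1 := Finset.prod_union_inter (s₁ := a.primeFactors) (s₂ := b.primeFactors) (f := fun p : ℕ => p)
  rw [← h1]
  refine Nat.le_mul_of_pos_right _ ?_
  exact Finset.prod_pos fun p hp => (Nat.prime_of_mem_primeFactors (Finset.mem_inter.1 hp).1).pos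

variable {n k : ℕ}

/-- The number `sqDet` at a multiple of a point. -/
theorem sqDet_smul (m : ℤ) (x : Fin (n + 1) → ℤ) (t : Fin (n + 1) → Fin (n + 1) × Fin (n + 1) × Fin (n + 1)) :
    ∃ d ≤ (n + 1) + 2 * (Fintype.card (Fin (n + 1) × Fin (n + 1) × Fin (n + 1))),
      sqDet (fun i => m * x i) t = m ^ d * sqDet x t := by
  refine ⟨(n + 1) + 2 * (Finset.univ.image t)ᶜ.card, ?_, ?_⟩
  · have := Finset.card_le_univ (Finset.univ.image t)ᶜ
    omega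
  · have h1 : (Matrix.of fun i j => eval (fun i => m * x i) (pderiv j (sqForm (t i)))) =
        m • Matrix.of fun i j => eval x (pderiv j (sqForm (t i))) := by
      ext i j
      rw [Matrix.smul_apply, Matrix.of_apply, Matrix.of_apply, eval_scale (sqForm_hom (t i)).pderiv]
      simp
    have h2 : ∏ a ∈ (Finset.univ.image t)ᶜ, eval (fun i => m * x i) (sqForm a) =
        m ^ (2 * (Finset.univ.image t)ᶜ.card) * ∏ a ∈ (Finset.univ.image t)ᶜ, eval x (sqForm a) := by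
      rw [pow_mul, ← Finset.prod_const, ← Finset.prod_mul_distrib]
      exact Finset.prod_congr rfl fun a _ => eval_scale (sqForm_hom a) m x
    rw [sqDet, h1, h2, Matrix.det_smul, Fintype.card_fin, sqDet, pow_add]
    ring

/-- The base. -/
private theorem B_base (hk : 0 < k) {x : Fin (n + 1) → ℤ} (hx : x ≠ 0) : ∃ u₀ : ℤ, 1 ≤ u₀ ∧ (∀ i, |x i| ≤ u₀ ^ k) ∧
    (u₀ : ℝ) ≤ 2 * ‖x‖ ^ ((1 : ℝ) / k) ∧ 1 ≤ ‖x‖ := by
  obtain ⟨i₀, hi₀⟩ : ∃ i, x i ≠ 0 := by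
    by_contra hcon
    push Not at hcon
    exact hx (funext hcon)
  have hx1 : 1 ≤ ‖x‖ := by
    have h1 : (1 : ℝ) ≤ ‖x i₀‖ := by
      rw [Int.norm_eq_abs]
      exact_mod_cast Int.one_le_abs hi₀
    exact h1.trans (norm_le_pi_norm x i₀)
  have hk' : (k : ℝ) ≠ 0 := by exact_mod_cast hk.ne'
  have h2 : 1 ≤ ‖x‖ ^ ((1 : ℝ) / k) := Real.one_le_rpow hx1 (by positivity)
  refine ⟨⌈‖x‖ ^ ((1 : ℝ) / k)⌉, ?_, ?_, ?_, hx1⟩
  · have h3 : ((1 : ℤ) : ℝ) ≤ (⌈‖x‖ ^ ((1 : ℝ) / k)⌉ : ℝ) := by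
      rw [Int.cast_one]
      exact h2.trans (Int.le_ceil _)
    exact_mod_cast h3
  · intro i
    have h3 : ‖x i‖ ≤ (⌈‖x‖ ^ ((1 : ℝ) / k)⌉ : ℝ) ^ k := by
      refine (norm_le_pi_norm x i).trans ?_
      have h4 : ‖x‖ = (‖x‖ ^ ((1 : ℝ) / k)) ^ k := by
        rw [← Real.rpow_natCast, ← Real.rpow_mul (norm_nonneg _), one_div, inv_mul_cancel₀ hk', Real.rpow_one]
      conv_lhs => rw [h4]
      exact pow_le_pow_left₀ (by positivity) (Int.le_ceil _) k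
    rw [Int.norm_eq_abs] at h3
    exact_mod_cast h3
  · have h3 := (Int.ceil_lt_add_one (‖x‖ ^ ((1 : ℝ) / k))).le
    linarith

/-- The inequality with the exponent `c` for `n` and `k` gives the explicit inequality with the exponent
`(c + n + 2) / k`. -/
theorem sq_of_fix {c ε : ℝ} (hc : 0 < c) (hk0 : 0 < k) (hk : (c + (n + 2)) / k ≤ ε)
    (h : FixInt c n k) : ∃ (G : MvPolynomial (Fin (n + 1)) ℤ) (C : ℝ), G ≠ 0 ∧ (∃ d, G.IsHomogeneous d) ∧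
    ∀ w : Fin (n + 1) → ℤ, Finset.univ.gcd w = 1 → eval w G ≠ 0 → ∀ s,
      |(sqDet w s : ℝ)| ≤ C * ‖w‖ ^ ε * (∏ p ∈ (∏ a, eval w (sqForm a)).natAbs.primeFactors, (p : ℝ)) *
        (Finset.univ.gcd (sqDet w) : ℤ) := by
  obtain ⟨G₁, C₀, hG₁, hmain⟩ := h
  obtain ⟨C₁, hC₁⟩ : ∃ C₁ : ℝ, C₁ = max C₀ 0 := ⟨_, rfl⟩
  have hC0 : 0 ≤ C₁ := hC₁ ▸ le_max_right _ _
  have hC01 : C₀ ≤ C₁ := hC₁ ▸ le_max_left _ _
  have hvar : (∏ v : Var n k, (X v : MvPolynomial (Var n k) ℤ)) ≠ 0 := Finset.prod_ne_zero_iff.2 fun v _ => X_ne_zero v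
  obtain ⟨G, B, ⟨e, hGh⟩, hG0, hpt⟩ := exists_pt hk0 (mul_ne_zero hG₁ hvar)
  obtain ⟨T, hT⟩ : ∃ T : ℕ, T = Fintype.card (Fin (n + 1) × Fin (n + 1) × Fin (n + 1)) := ⟨_, rfl⟩
  obtain ⟨D, hD⟩ : ∃ D : ℕ, D = (n + 1) + 2 * T := ⟨_, rfl⟩
  have hP0 : (∏ a : Fin (n + 1) × Fin (n + 1) × Fin (n + 1), sqForm a) ≠ 0 :=
    Finset.prod_ne_zero_iff.2 fun a _ => sqForm_ne a
  have hPh : ∃ e, (∏ a : Fin (n + 1) × Fin (n + 1) × Fin (n + 1), sqForm a).IsHomogeneous e :=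
    ⟨_, IsHomogeneous.prod _ _ _ fun a _ => sqForm_hom a⟩
  obtain ⟨e', he'⟩ := hPh
  refine ⟨G * ∏ a, sqForm a, C₁ * (B : ℝ) ^ (k * (n + 1) + 2 * T + D) * (2 * (B : ℝ)) ^ (c + (n + 2)),
    mul_ne_zero hG0 hP0, ⟨e + e', hGh.mul he'⟩, ?_⟩
  intro x hg hGx t
  rw [map_mul, map_prod, mul_ne_zero_iff, Finset.prod_ne_zero_iff] at hGx
  have h0 : ∀ t, eval x (sqForm t) ≠ 0 := fun t => hGx.2 t (Finset.mem_univ t)
  have hx0 : x ≠ 0 := by
    rintro rfl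
    rw [Finset.gcd_eq_zero_iff.2 (by simp)] at hg
    exact zero_ne_one hg
  obtain ⟨u₀, hu1, hxu, hu2, hx1⟩ := B_base hk0 hx0
  obtain ⟨m, z, hm0, hmB, huz, hzB, hxz, hzG⟩ := hpt x u₀ hGx.1 hu1 hxu
  rw [map_mul, map_prod, mul_ne_zero_iff, Finset.prod_ne_zero_iff] at hzG
  have hz0 : ∀ v, z v ≠ 0 := fun v => by
    have := hzG.2 v (Finset.mem_univ v)
    rwa [eval_X] at this
  obtain ⟨γ, hγ⟩ : ∃ γ : ℤ, γ = Finset.univ.gcd (sqDet x) := ⟨_, rfl⟩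
  obtain ⟨R, hR⟩ : ∃ R : ℕ, R = rad (∏ a, eval x (sqForm a)).natAbs := ⟨_, rfl⟩
  have hRr : (∏ p ∈ (∏ a, eval x (sqForm a)).natAbs.primeFactors, (p : ℝ)) = (R : ℝ) := by
    rw [hR, rad, Nat.cast_prod]
  rw [hRr, ← hγ]
  have hγ0 : 0 ≤ γ := by
    rw [hγ, ← Finset.normalize_gcd, ← Int.abs_eq_normalize]
    exact abs_nonneg _
  by_cases hγz : γ = 0
  · have h1 : sqDet x t = 0 := by
      rw [hγz] at hγ
      exact Finset.gcd_eq_zero_iff.1 hγ.symm t (Finset.mem_univ t)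
    rw [h1, hγz]
    simp
  have hγ1 : 1 ≤ γ := by omega
  -- the numbers
  have hm1 : 1 ≤ |m| := Int.one_le_abs hm0
  have hB1 : (1 : ℤ) ≤ B := hm1.trans hmB
  have hBr : (1 : ℝ) ≤ B := by exact_mod_cast hB1
  have hur : (1 : ℝ) ≤ u₀ := by exact_mod_cast hu1
  obtain ⟨β, hβ⟩ : ∃ β : ℝ, β = B * u₀ := ⟨_, rfl⟩
  have hβ1 : 1 ≤ β := by
    rw [hβ]
    exact one_le_mul_of_one_le_of_one_le hBr hur
  have hzβ : ∀ v, |(z v : ℝ)| ≤ β := by
    intro v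
    rw [hβ]
    exact_mod_cast hzB v
  have hzn : ‖z‖ ≤ β := by
    rw [pi_norm_le_iff_of_nonneg (by linarith)]
    intro v
    rw [Int.norm_eq_abs]
    exact hzβ v
  -- the top digits
  obtain ⟨W, hW⟩ : ∃ W : ℝ, W = ∏ i : Fin (n + 1), |(z (some (i, Fin.last k)) : ℝ)| := ⟨_, rfl⟩
  have hWp : 0 < W := by
    rw [hW]
    exact Finset.prod_pos fun i _ => abs_pos.2 (by exact_mod_cast hz0 _)
  -- the lower bound
  have hlow : ((u₀ : ℝ) ^ k) ^ (n + 1) * W * |(sqDet x t : ℝ)| ≤ |(famDet z (sOf (Fin.last k) t) : ℝ)| := by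
    obtain ⟨d, -, hd⟩ := sqDet_smul m x t
    rw [famDet_sOf, hxz, hd, Fin.val_last]
    push_cast
    rw [abs_mul, abs_mul, abs_mul, Finset.abs_prod, ← hW, abs_pow, abs_pow, abs_pow]
    have h1 : (1 : ℝ) ≤ |(m : ℝ)| ^ d := one_le_pow₀ (by exact_mod_cast hm1)
    have h2 : (u₀ : ℝ) ≤ |(z none : ℝ)| := by
      have h3 : u₀ ≤ |z none| := huz.trans (le_abs_self _)
      exact_mod_cast h3
    have h3 : ((u₀ : ℝ) ^ k) ^ (n + 1) ≤ (|(z none : ℝ)| ^ k) ^ (n + 1) :=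
      pow_le_pow_left₀ (by positivity) (pow_le_pow_left₀ (by positivity) h2 _) _
    have h4 : |(sqDet x t : ℝ)| ≤ |(m : ℝ)| ^ d * |(sqDet x t : ℝ)| := le_mul_of_one_le_left (abs_nonneg _) h1
    calc ((u₀ : ℝ) ^ k) ^ (n + 1) * W * |(sqDet x t : ℝ)|
        ≤ (|(z none : ℝ)| ^ k) ^ (n + 1) * W * (|(m : ℝ)| ^ d * |(sqDet x t : ℝ)|) := by gcongr
      _ = _ := by ring
  -- the greatest common divisor
  have hgcd : ((Finset.univ.gcd (famDet z) : ℤ) : ℝ) ≤ β ^ (n + 1) * (B : ℝ) ^ D * γ := by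
    have h1 : Finset.univ.gcd (famDet z) ∣ (∏ i, z (some (i, 0))) * m ^ D * γ := by
      have h2 : ∀ t, Finset.univ.gcd (famDet z) ∣ (∏ i, z (some (i, 0))) * m ^ D * sqDet x t := by
        intro t
        obtain ⟨d, hd1, hd⟩ := sqDet_smul m x t
        have h3 : Finset.univ.gcd (famDet z) ∣ famDet z (sOf 0 t) := Finset.gcd_dvd (Finset.mem_univ _)
        rw [famDet_sOf, hxz, hd, Fin.val_zero, pow_zero, one_pow, one_mul] at h3
        refine h3.trans ?_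
        rw [mul_assoc]
        refine mul_dvd_mul_left _ (mul_dvd_mul_right (pow_dvd_pow _ ?_) _)
        rw [hD, hT]
        exact hd1
      have h3 : Finset.univ.gcd (famDet z) ∣
          Finset.univ.gcd fun t => (∏ i, z (some (i, 0))) * m ^ D * sqDet x t := Finset.dvd_gcd fun t _ => h2 t
      rw [Finset.gcd_mul_left, ← hγ] at h3
      exact h3.trans (mul_dvd_mul_right (normalize_associated _).dvd _)
    have hW0 : (∏ i, z (some (i, 0))) ≠ 0 := Finset.prod_ne_zero_iff.2 fun i _ => hz0 _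
    have h2 : (∏ i, z (some (i, 0))) * m ^ D * γ ≠ 0 := mul_ne_zero (mul_ne_zero hW0 (pow_ne_zero _ hm0)) hγz
    have h3 : Finset.univ.gcd (famDet z) ≤ |(∏ i, z (some (i, 0))) * m ^ D * γ| :=
      Int.le_of_dvd (abs_pos.2 h2) ((dvd_abs _ _).2 h1)
    have h4 : ((Finset.univ.gcd (famDet z) : ℤ) : ℝ) ≤ ((|(∏ i, z (some (i, 0))) * m ^ D * γ| : ℤ) : ℝ) :=
      Int.cast_le.2 h3
    refine h4.trans ?_
    rw [abs_mul, abs_mul, abs_of_nonneg hγ0, Finset.abs_prod, abs_pow]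
    push_cast
    have h5 : ∏ i : Fin (n + 1), |(z (some (i, 0)) : ℝ)| ≤ β ^ (n + 1) := by
      refine (Finset.prod_le_prod (fun i _ => abs_nonneg _) fun i _ => hzβ _).trans (le_of_eq ?_)
      rw [Finset.prod_const, Finset.card_univ, Fintype.card_fin]
    have h6 : |(m : ℝ)| ^ D ≤ (B : ℝ) ^ D := pow_le_pow_left₀ (abs_nonneg _) (by exact_mod_cast hmB) _
    have h7 : (0 : ℝ) ≤ γ := by exact_mod_cast hγ0
    gcongr
  -- the radical
  have hrad : (∏ p ∈ (∏ a, eval z (fam a)).natAbs.primeFactors, (p : ℝ)) ≤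
      β * (β ^ k) ^ (n + 1) * W * (B : ℝ) ^ (2 * T) * R := by
    have h1 : (∏ a, eval z (fam a)).natAbs =
        (∏ v, (z v).natAbs) * (m.natAbs ^ (2 * T) * (∏ a, eval x (sqForm a)).natAbs) := by
      rw [Fintype.prod_sum_type, Int.natAbs_mul]
      congr 1
      · rw [Finset.prod_congr rfl fun v _ => eval_fam_inl z v]
        exact map_prod Int.natAbsHom _ _
      · rw [Finset.prod_congr rfl fun a _ => eval_fam_inr z a, hxz,
          Finset.prod_congr rfl fun a _ => eval_scale (sqForm_hom a) m x, Finset.prod_mul_distrib, Finset.prod_const,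
          Finset.card_univ, ← hT, ← pow_mul, Int.natAbs_mul, Int.natAbs_pow]
    have h2 : (∏ v, (z v).natAbs) ≠ 0 := Finset.prod_ne_zero_iff.2 fun v _ => Int.natAbs_ne_zero.2 (hz0 v)
    have h3 : (∏ a, eval x (sqForm a)).natAbs ≠ 0 :=
      Int.natAbs_ne_zero.2 (Finset.prod_ne_zero_iff.2 fun a _ => h0 a)
    have h4 : m.natAbs ^ (2 * T) ≠ 0 := pow_ne_zero _ (Int.natAbs_ne_zero.2 hm0)
    have h5 : rad (∏ a, eval z (fam a)).natAbs ≤ (∏ v, (z v).natAbs) * (m.natAbs ^ (2 * T) * R) := by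
      rw [h1, hR]
      refine (rad_mul_le h2 (mul_ne_zero h4 h3)).trans (Nat.mul_le_mul (rad_le h2) ?_)
      exact (rad_mul_le h4 h3).trans (Nat.mul_le_mul (rad_le h4) le_rfl)
    have h6 : ((rad (∏ a, eval z (fam a)).natAbs : ℕ) : ℝ) ≤
        (((∏ v, (z v).natAbs) * (m.natAbs ^ (2 * T) * R) : ℕ) : ℝ) := Nat.cast_le.2 h5
    rw [rad, Nat.cast_prod] at h6
    refine h6.trans ?_
    rw [Nat.cast_mul, Nat.cast_mul, Nat.cast_prod, Nat.cast_pow]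
    simp only [Nat.cast_natAbs, Int.cast_abs]
    have h7 : ∏ v : Var n k, |(z v : ℝ)| ≤ β * ((β ^ k) ^ (n + 1) * W) := by
      rw [Fintype.prod_option, Fintype.prod_prod_type]
      refine mul_le_mul (hzβ _) ?_ (Finset.prod_nonneg fun i _ => Finset.prod_nonneg fun j _ => abs_nonneg _)
        (by linarith)
      have h8 : ∀ i : Fin (n + 1), ∏ j : Fin (k + 1), |(z (some (i, j)) : ℝ)| =
          (∏ j : Fin k, |(z (some (i, j.castSucc)) : ℝ)|) * |(z (some (i, Fin.last k)) : ℝ)| := fun i =>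
        Fin.prod_univ_castSucc _
      rw [Finset.prod_congr rfl fun i _ => h8 i, Finset.prod_mul_distrib, ← hW]
      refine mul_le_mul_of_nonneg_right ?_ hWp.le
      have h9 : ∀ i ∈ (Finset.univ : Finset (Fin (n + 1))),
          ∏ j : Fin k, |(z (some (i, j.castSucc)) : ℝ)| ≤ β ^ k := by
        intro i _
        refine (Finset.prod_le_prod (fun j _ => abs_nonneg _) fun j _ => hzβ _).trans (le_of_eq ?_)
        rw [Finset.prod_const, Finset.card_univ, Fintype.card_fin]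
      refine (Finset.prod_le_prod (fun i _ => Finset.prod_nonneg fun j _ => abs_nonneg _) h9).trans (le_of_eq ?_)
      rw [Finset.prod_const, Finset.card_univ, Fintype.card_fin]
    have h8 : |(m : ℝ)| ^ (2 * T) ≤ (B : ℝ) ^ (2 * T) := pow_le_pow_left₀ (abs_nonneg _) (by exact_mod_cast hmB) _
    have h9 : (0 : ℝ) ≤ R := Nat.cast_nonneg _
    calc (∏ v : Var n k, |(z v : ℝ)|) * (|(m : ℝ)| ^ (2 * T) * R)
        ≤ (β * ((β ^ k) ^ (n + 1) * W)) * ((B : ℝ) ^ (2 * T) * R) := by gcongr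
      _ = _ := by ring
  -- the inequality
  have hfin := hmain z hzG.1 (sOf (Fin.last k) t)
  have hγr : (0 : ℝ) ≤ γ := by exact_mod_cast hγ0
  have hR0 : (0 : ℝ) ≤ R := Nat.cast_nonneg _
  have hu0 : (0 : ℝ) < u₀ := by linarith
  have hβ0 : 0 < β := by linarith
  have hB0 : (0 : ℝ) < B := by linarith
  have h1 : ((u₀ : ℝ) ^ k) ^ (n + 1) * W * |(sqDet x t : ℝ)| ≤
      C₁ * β ^ c * (β * (β ^ k) ^ (n + 1) * W * (B : ℝ) ^ (2 * T) * R) * (β ^ (n + 1) * (B : ℝ) ^ D * γ) := by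
    refine hlow.trans (hfin.trans ?_)
    have h2 : (0 : ℝ) ≤ ((Finset.univ.gcd (famDet z) : ℤ) : ℝ) := by
      have h3 : (0 : ℤ) ≤ Finset.univ.gcd (famDet z) := by
        rw [← Finset.normalize_gcd, ← Int.abs_eq_normalize]
        exact abs_nonneg _
      exact_mod_cast h3
    have h3 : (0 : ℝ) ≤ ∏ p ∈ (∏ a, eval z (fam a)).natAbs.primeFactors, (p : ℝ) :=
      Finset.prod_nonneg fun p _ => Nat.cast_nonneg _
    have h4 : ‖z‖ ^ c ≤ β ^ c := Real.rpow_le_rpow (norm_nonneg _) hzn hc.le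
    have h5 : (0 : ℝ) ≤ ‖z‖ ^ c := Real.rpow_nonneg (norm_nonneg _) _
    gcongr
  have h2 : (β ^ k) ^ (n + 1) = (B : ℝ) ^ (k * (n + 1)) * ((u₀ : ℝ) ^ k) ^ (n + 1) := by
    rw [hβ, mul_pow, mul_pow, ← pow_mul]
  have h3 : |(sqDet x t : ℝ)| ≤ C₁ * (B : ℝ) ^ (k * (n + 1) + 2 * T + D) * (β ^ c * β ^ (n + 2)) * R * γ := by
    have h4 : 0 < ((u₀ : ℝ) ^ k) ^ (n + 1) * W := by positivity
    refine le_of_mul_le_mul_left ?_ h4
    refine h1.trans (le_of_eq ?_)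
    rw [h2]
    ring
  have h4 : β ^ c * β ^ (n + 2) ≤ (2 * (B : ℝ)) ^ (c + (n + 2)) * ‖x‖ ^ ε := by
    have h5 : β ^ c * β ^ (n + 2) = β ^ (c + (n + 2)) := by
      rw [Real.rpow_add hβ0]
      congr 1
      rw [← Real.rpow_natCast]
      push_cast
      ring_nf
    have h6 : β ≤ 2 * (B : ℝ) * ‖x‖ ^ ((1 : ℝ) / k) := by
      rw [hβ]
      nlinarith
    have h7 : (0 : ℝ) ≤ c + (n + 2) := by positivity
    have h8 : (0 : ℝ) ≤ ‖x‖ ^ ((1 : ℝ) / k) := Real.rpow_nonneg (norm_nonneg _) _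
    rw [h5]
    refine (Real.rpow_le_rpow hβ0.le h6 h7).trans ?_
    rw [Real.mul_rpow (by positivity) h8, ← Real.rpow_mul (norm_nonneg _)]
    refine mul_le_mul_of_nonneg_left (Real.rpow_le_rpow_of_exponent_le hx1 ?_) (by positivity)
    rw [one_div, mul_comm, ← div_eq_mul_inv]
    exact hk
  calc |(sqDet x t : ℝ)| ≤ C₁ * (B : ℝ) ^ (k * (n + 1) + 2 * T + D) * (β ^ c * β ^ (n + 2)) * R * γ := h3
    _ ≤ C₁ * (B : ℝ) ^ (k * (n + 1) + 2 * T + D) * ((2 * (B : ℝ)) ^ (c + (n + 2)) * ‖x‖ ^ ε) * R * γ := by gcongr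
    _ = _ := by ring

/-- The inequality with the exponents `η k`, `k` large, suffices. -/
theorem sqInt_of_fixInt (h : ∀ η : ℝ, 0 < η → ∀ k₀ : ℕ, ∃ k ≥ k₀, FixInt (η * k) n k) : SqInt n := by
  intro ε hε
  obtain ⟨k₀, hk₀⟩ := exists_nat_gt ((n + 2) / (ε / 2))
  obtain ⟨k, hk, hfix⟩ := h (ε / 2) (by positivity) k₀
  have h1 : (0 : ℝ) < (n + 2) / (ε / 2) := by positivity
  have h2 : ((n : ℝ) + 2) / (ε / 2) < k := hk₀.trans_le (by exact_mod_cast hk)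
  have h3 : (0 : ℝ) < k := h1.trans h2
  refine sq_of_fix (by positivity) (by exact_mod_cast h3) ?_ hfix
  rw [div_lt_iff₀ (by positivity)] at h2
  rw [div_le_iff₀ h3]
  linarith

end Pool.Agent.Lib.MP_17a322_nt.FI
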