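import Pool.Agent.Lib.MP_17a322_nt.FI.A
import Pool.Agent.Lib.MP_17a322_nt.GQ.SqC

/-!
The inequality with a fixed exponent follows from the abc inequality for polynomials.
-/

namespace Pool.Agent.Lib.MP_17a322_nt.FI

open MvPolynomial Height NumberField
open Pool.Agent.Lib.MP_17a322_nt.GQ

variable {n k : ℕ}

/-- The family with rational coefficients. -/
noncomputable def famQ (n k : ℕ) : Finset (MvPolynomial (Var n k) ℚ) := by
  classical exact Finset.univ.image fun a => map (Int.castRingHom ℚ) (fam (n := n) (k := k) a)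

theorem mem_famQ {p : MvPolynomial (Var n k) ℚ} : p ∈ famQ n k ↔ ∃ a, map (Int.castRingHom ℚ) (fam a) = p := by
  classical
  unfold famQ
  simp only [Finset.mem_image, Finset.mem_univ, true_and]

theorem fam_ne (a : Var n k ⊕ (Fin (n + 1) × Fin (n + 1) × Fin (n + 1))) : fam a ≠ 0 := by
  cases a with
  | inl v => exact X_ne_zero v
  | inr t =>
    intro h
    apply sqForm_ne t
    apply MvPolynomial.funext
    intro x
    obtain ⟨z, hz0, hz1, hz2⟩ : ∃ z : Var n k → ℤ, z none = 0 ∧ (∀ i, z (some (i, 0)) = x i) ∧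
        ∀ i j, j ≠ 0 → z (some (i, j)) = 0 :=
      ⟨fun v => v.elim 0 fun ij => if ij.2 = 0 then x ij.1 else 0, rfl, fun i => by simp, fun i j hj => by simp [hj]⟩
    have h1 := eval_fam_inr z t
    have h2 : xv z = x := by
      funext i
      rw [xv_eq, Finset.sum_eq_single 0]
      · rw [hz1, Fin.val_zero, pow_zero, mul_one]
      · intro j _ hj
        rw [hz2 i j hj, zero_mul]
      · intro h3
        exact absurd (Finset.mem_univ _) h3
    rw [h, map_zero, h2] at h1
    rw [← h1, map_zero]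

private theorem C_cast (z : Var n k → ℤ) (p : MvPolynomial (Var n k) ℤ) :
    eval (fun i => (z i : ℚ)) (map (Int.castRingHom ℚ) p) = ((eval z p : ℤ) : ℚ) := by
  rw [eval_map]
  exact (eval₂_comp (Int.castRingHom ℚ) z p).symm

private theorem C_clear {σ : Type*} (p : MvPolynomial σ ℚ) :
    ∃ (N : ℤ) (q : MvPolynomial σ ℤ), N ≠ 0 ∧ map (Int.castRingHom ℚ) q = C (N : ℚ) * p := by
  induction p using MvPolynomial.induction_on with
  | C a =>
    refine ⟨a.den, C a.num, Int.natCast_ne_zero.2 a.den_nz, ?_⟩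
    rw [map_C, ← C_mul]
    congr 1
    rw [eq_intCast, Int.cast_natCast, mul_comm, Rat.mul_den_eq_num]
  | add p q hp hq =>
    obtain ⟨N, p', hN, hp'⟩ := hp
    obtain ⟨M, q', hM, hq'⟩ := hq
    refine ⟨N * M, C M * p' + C N * q', mul_ne_zero hN hM, ?_⟩
    rw [map_add, map_mul, map_mul, hp', hq', map_C, map_C, eq_intCast, eq_intCast, Int.cast_mul, C_mul]
    ring
  | mul_X p i hp =>
    obtain ⟨N, p', hN, hp'⟩ := hp
    refine ⟨N, p' * X i, hN, ?_⟩
    rw [map_mul, hp', map_X, mul_assoc]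

/-- The numbers `famDet` are the coordinates of the vector of the logarithmic derivatives, up to a factor. -/
private theorem C_det (z : Var n k → ℤ) (h0 : ∀ a, eval z (fam a) ≠ 0)
    (s : Var n k → Var n k ⊕ (Fin (n + 1) × Fin (n + 1) × Fin (n + 1))) :
    ((famDet z s : ℤ) : ℚ) = ((∏ a, eval z (fam a) : ℤ) : ℚ) *
      vec (famQ n k) (fun i => (z i : ℚ)) (fun v => ⟨map (Int.castRingHom ℚ) (fam (s v)), mem_famQ.2 ⟨_, rfl⟩⟩) := by
  have hs0 : ∀ v, ((eval z (fam (s v)) : ℤ) : ℚ) ≠ 0 := fun i => by exact_mod_cast h0 (s i)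
  obtain ⟨M, hM⟩ : ∃ M : Matrix (Var n k) (Var n k) ℚ, M = Matrix.of fun a b =>
      ((eval z (pderiv b (fam (s a))) : ℤ) : ℚ) / ((eval z (fam (s a)) : ℤ) : ℚ) := ⟨_, rfl⟩
  have hvec : vec (famQ n k) (fun i => (z i : ℚ)) (fun v => ⟨map (Int.castRingHom ℚ) (fam (s v)), mem_famQ.2 ⟨_, rfl⟩⟩) =
      M.det := by
    rw [vec, hM]
    congr 1
    ext a b
    rw [Matrix.of_apply, Matrix.of_apply, pderiv_map, C_cast, C_cast]
  rw [hvec]
  have h1 : ((Matrix.of fun a b => eval z (pderiv b (fam (s a)))).det : ℚ) =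
      (∏ v, ((eval z (fam (s v)) : ℤ) : ℚ)) * M.det := by
    rw [Int.cast_det, ← Matrix.det_mul_column]
    congr 1
    ext a b
    rw [Matrix.map_apply, Matrix.of_apply, Matrix.of_apply, hM, Matrix.of_apply]
    rw [mul_div_cancel₀ _ (hs0 a)]
  by_cases hs : Function.Injective s
  · unfold famDet
    rw [Int.cast_mul, h1]
    have h2 : (∏ a, eval z (fam a)) =
        (∏ v, eval z (fam (s v))) * ∏ a ∈ (Finset.univ.image s)ᶜ, eval z (fam a) := by
      rw [← Finset.prod_mul_prod_compl (Finset.univ.image s), Finset.prod_image fun a _ b _ h => hs h]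
    rw [h2]
    push_cast
    ring
  · have h3 : M.det = 0 := by
      rw [Function.Injective] at hs
      push Not at hs
      obtain ⟨a, b, hab, hne⟩ := hs
      apply Matrix.det_zero_of_row_eq hne
      funext j
      rw [hM, Matrix.of_apply, Matrix.of_apply, hab]
    unfold famDet
    rw [Int.cast_mul, h1, h3, mul_zero, mul_zero, zero_mul]

private theorem C_vint (v : FinitePlace ℚ) (z : ℤ) : v (z : ℚ) = v ((z.natAbs : ℕ) : ℚ) := by
  rcases Int.natAbs_eq z with h | h
  · conv_lhs => rw [h]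
    rw [Int.cast_natCast]
  · conv_lhs => rw [h]
    rw [Int.cast_neg, Int.cast_natCast, map_neg_eq_map]

private theorem C_places (z : Var n k → ℤ) (v : FinitePlace ℚ) :
    (∃ p ∈ famQ n k, v (eval (fun i => (z i : ℚ)) p) ≠ 1) ↔ pr v ∣ (∏ a, eval z (fam a)).natAbs := by
  have h0 : (∏ a, eval z (fam a)).natAbs = ∏ a, (eval z (fam a)).natAbs := map_prod Int.natAbsHom _ _
  rw [h0, (pr_prime v).prime.dvd_finsetProd_iff]
  constructor
  · rintro ⟨p, hp, hpv⟩
    obtain ⟨a, rfl⟩ := mem_famQ.1 hp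
    refine ⟨a, Finset.mem_univ _, ?_⟩
    by_contra h
    apply hpv
    rw [C_cast, C_vint, apply_eq_one _ _ h]
  · rintro ⟨a, -, ha⟩
    refine ⟨_, mem_famQ.2 ⟨a, rfl⟩, ?_⟩
    rw [C_cast, C_vint]
    exact ne_of_lt ((apply_lt_one_iff v _).2 ha)

theorem fixInt_of_ineq {c : ℝ} (hc : 0 < c) (h : Ineq (famQ n k)) : FixInt c n k := by
  obtain ⟨G, C₀, hG, hmain⟩ := h c hc
  obtain ⟨N, H, hN, hH⟩ := C_clear G
  have hN' : (N : ℚ) ≠ 0 := by exact_mod_cast hN
  have hH0 : H ≠ 0 := by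
    rintro rfl
    rw [map_zero] at hH
    exact mul_ne_zero (C_ne_zero.2 hN') hG hH.symm
  refine ⟨H * ∏ a, fam a, Real.exp C₀, mul_ne_zero hH0 (Finset.prod_ne_zero_iff.2 fun a _ => fam_ne a), ?_⟩
  intro z hz s
  rw [map_mul, map_prod, mul_ne_zero_iff, Finset.prod_ne_zero_iff] at hz
  have h0 : ∀ a, eval z (fam a) ≠ 0 := fun a => hz.2 a (Finset.mem_univ a)
  have hy : eval (fun i => (z i : ℚ)) G ≠ 0 := by
    intro h1
    apply hz.1
    have h2 := C_cast z H
    rw [hH, map_mul, h1, mul_zero] at h2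
    exact_mod_cast h2.symm
  have hN1 : (∏ a, eval z (fam a)).natAbs ≠ 0 := Int.natAbs_ne_zero.2 (Finset.prod_ne_zero_iff.2 fun a _ => h0 a)
  obtain ⟨R, hR⟩ : ∃ R : ℝ, R = ∏ p ∈ (∏ a, eval z (fam a)).natAbs.primeFactors, (p : ℝ) := ⟨_, rfl⟩
  have hR1 : 0 < R := by
    rw [hR]
    exact Finset.prod_pos fun p hp => by exact_mod_cast (Nat.prime_of_mem_primeFactors hp).pos
  have hz0 : z ≠ 0 := by
    intro h1
    apply h0 (Sum.inl none)
    rw [eval_fam_inl, h1]
    rfl
  have hz1 : 1 ≤ ‖z‖ := by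
    have h1 : z none ≠ 0 := by
      have := h0 (Sum.inl none)
      rwa [eval_fam_inl] at this
    have h2 : (1 : ℝ) ≤ ‖z none‖ := by
      rw [Int.norm_eq_abs]
      exact_mod_cast Int.one_le_abs h1
    exact h2.trans (norm_le_pi_norm z none)
  have hset : {v : FinitePlace ℚ | ∃ p ∈ famQ n k, v (eval (fun i => (z i : ℚ)) p) ≠ 1} =
      {v : FinitePlace ℚ | pr v ∣ (∏ a, eval z (fam a)).natAbs} := Set.ext fun v => C_places z v
  have h1 := (hmain _ hy).2
  rw [hset, finsum_pr _ hN1, ← hR] at h1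
  -- the height of the point
  have hpt : logHeight (fun o : Option (Var n k) => o.elim (1 : ℚ) fun i => (z i : ℚ)) ≤ Real.log ‖z‖ := by
    obtain ⟨q, hq⟩ : ∃ q : Option (Var n k) → ℤ, q = fun o => o.elim 1 z := ⟨_, rfl⟩
    have h2 : (fun o : Option (Var n k) => o.elim (1 : ℚ) fun i => (z i : ℚ)) = fun o => ((q o : ℤ) : ℚ) := by
      funext o
      rw [hq]
      cases o <;> simp
    have hq0 : q ≠ 0 := by
      intro h3
      have h4 := congrFun h3 none
      rw [hq] at h4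
      exact one_ne_zero h4
    have h3 : 0 ≤ Real.log ((Finset.univ.gcd q : ℤ) : ℝ) := by
      apply Real.log_nonneg
      exact_mod_cast sqGcd_pos q hq0
    rw [h2, sqHeight_int q hq0]
    have h4 : ‖q‖ ≤ ‖z‖ := by
      rw [pi_norm_le_iff_of_nonneg (norm_nonneg _)]
      intro o
      rw [hq]
      cases o with
      | none => simpa using hz1
      | some i => exact norm_le_pi_norm z i
    have h5 := Real.log_le_log (norm_pos_iff.2 hq0) h4
    linarith
  have h2 : logHeight (fun s => ((famDet z s : ℤ) : ℚ)) ≤ logHeight (vec (famQ n k) fun i => (z i : ℚ)) := by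
    have h3 : ((∏ a, eval z (fam a) : ℤ) : ℚ) ≠ 0 := by
      exact_mod_cast Finset.prod_ne_zero_iff.2 fun a _ => h0 a
    have h4 : (fun s => ((famDet z s : ℤ) : ℚ)) = ((∏ a, eval z (fam a) : ℤ) : ℚ) •
        (vec (famQ n k) (fun i => (z i : ℚ)) ∘ fun s v => ⟨map (Int.castRingHom ℚ) (fam (s v)), mem_famQ.2 ⟨_, rfl⟩⟩) := by
      funext s
      rw [C_det z h0 s, Pi.smul_apply, smul_eq_mul, Function.comp_apply]
    rw [h4, logHeight_smul_eq_logHeight _ h3]
    exact logHeight_comp_le _ _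
  rw [← hR]
  by_cases hD : famDet z = 0
  · rw [hD, Finset.gcd_eq_zero_iff.2 (by simp)]
    simp
  · have hne : Nonempty (Var n k → Var n k ⊕ (Fin (n + 1) × Fin (n + 1) × Fin (n + 1))) := ⟨fun v => Sum.inl v⟩
    rw [sqHeight_int _ hD] at h2
    have hgp := sqGcd_pos _ hD
    obtain ⟨γ, hγ⟩ : ∃ γ : ℤ, γ = Finset.univ.gcd (famDet z) := ⟨_, rfl⟩
    rw [← hγ] at hgp h2 ⊢
    have hgp' : (0 : ℝ) < (γ : ℝ) := by exact_mod_cast hgp
    have h3 : 0 < ‖famDet z‖ := norm_pos_iff.2 hD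
    have h5 : c * logHeight (fun o : Option (Var n k) => o.elim (1 : ℚ) fun i => (z i : ℚ)) ≤ c * Real.log ‖z‖ :=
      mul_le_mul_of_nonneg_left hpt hc.le
    have hzp : 0 < ‖z‖ := by linarith
    have h4 : ‖famDet z‖ ≤ Real.exp C₀ * ‖z‖ ^ c * R * (γ : ℝ) := by
      rw [← Real.log_le_log_iff h3 (by positivity), Real.log_mul (by positivity) (by positivity),
        Real.log_mul (by positivity) (by positivity), Real.log_mul (by positivity) (by positivity),
        Real.log_rpow (by positivity), Real.log_exp]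
      linarith
    refine le_trans ?_ h4
    have h5 := norm_le_pi_norm (famDet z) s
    rwa [Int.norm_eq_abs] at h5

end Pool.Agent.Lib.MP_17a322_nt.FI
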