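import Pool.Agent.Lib.MP_17a322_nt.GQ.SqDef

/-!
The inequality with a fixed exponent for integers written in base `u`: definitions.
-/

namespace Pool.Agent.Lib.MP_17a322_nt.FI

open MvPolynomial

/-- The indices of the variables `u` (`none`) and `w_ij` (`some (i, j)`), `0 ≤ i ≤ n`, `0 ≤ j ≤ k`. -/
abbrev Var (n k : ℕ) : Type := Option (Fin (n + 1) × Fin (k + 1))

/-- The polynomial `w_i0 + w_i1 u + ... + w_ik u ^ k`. -/
noncomputable def XX {n k : ℕ} (i : Fin (n + 1)) : MvPolynomial (Var n k) ℤ :=
  ∑ j : Fin (k + 1), X (some (i, j)) * X none ^ (j : ℕ)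

/-- The variables `u`, `w_ij` and the polynomials `XX_i ^ 2 + XX_0 XX_j - XX_0 XX_l`. -/
noncomputable def fam {n k : ℕ} : Var n k ⊕ (Fin (n + 1) × Fin (n + 1) × Fin (n + 1)) →
    MvPolynomial (Var n k) ℤ :=
  Sum.elim X fun t => XX t.1 ^ 2 + XX 0 * XX t.2.1 - XX 0 * XX t.2.2

/-- For as many polynomials of the family as there are variables: the determinant of their gradients times the
product of the other polynomials of the family, at `z` (zero if two of the indices are equal). -/
noncomputable def famDet {n k : ℕ} (z : Var n k → ℤ)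
    (s : Var n k → Var n k ⊕ (Fin (n + 1) × Fin (n + 1) × Fin (n + 1))) : ℤ :=
  (Matrix.of fun a b => eval z (pderiv b (fam (s a)))).det * ∏ a ∈ (Finset.univ.image s)ᶜ, eval z (fam a)

/-- The inequality with the exponent `c`: there are a polynomial `G ≠ 0` and a constant `C` such that for all vectors
`z` of integers with `G(z) ≠ 0` every number `famDet z s` is at most `C |z| ^ c` times the radical of the product of
the values at `z` of the polynomials of the family times the greatest common divisor of the numbers `famDet z t`. -/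
def FixInt (c : ℝ) (n k : ℕ) : Prop :=
  ∃ (G : MvPolynomial (Var n k) ℤ) (C : ℝ), G ≠ 0 ∧ ∀ z : Var n k → ℤ, eval z G ≠ 0 → ∀ s,
    |(famDet z s : ℝ)| ≤ C * ‖z‖ ^ c * (∏ p ∈ (∏ a, eval z (fam a)).natAbs.primeFactors, (p : ℝ)) *
      (Finset.univ.gcd (famDet z) : ℤ)

end Pool.Agent.Lib.MP_17a322_nt.FI
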