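import Pool.Agent.Lib.MP_17a322_nt.FI.B
import Pool.Agent.Lib.MP_17a322_nt.FI.C
import Pool.Agent.Lib.MP_17a322_nt.GQ.SqInt
import Pool.Agent.Lib.MP_17a322_nt.GQ.Fin

/-!
The inequality with a fixed exponent for integers written in base `u` implies Vojta's conjecture: the theorem.
-/

universe v

namespace Pool.Agent.Lib.MP_17a322_nt.FI

open MvPolynomial
open Pool.Agent.Lib.MP_17a322_nt.GQ
open Pool.Agent.Lib.MP_17a322_nt.EQ
open Pool.Agent.Lib.MP_17a322_nt.JAC
open Pool.Agent.Lib.MP_17a322_nt.ABN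
open Pool.Agent.Lib.MP_17a322_nt.FL
open Pool.Agent.Lib.MP_17a322_nt.RAT (VojtaGaussRat)

theorem famQ_ne {n k : ℕ} {p : MvPolynomial (Var n k) ℚ} (hp : p ∈ famQ n k) : p ≠ 0 := by
  obtain ⟨a, rfl⟩ := mem_famQ.1 hp
  intro h
  exact fam_ne a (map_injective _ (Int.castRingHom ℚ).injective_int (h.trans (map_zero _).symm))

theorem fixInt_of_rat (L : Type v) [Field L] [NumberField L] {c : ℝ} (hc : 0 < c) (h : VojtaGaussRat L) (n k : ℕ) :
    FixInt c n k := by
  refine fixInt_of_ineq hc fun ε hε => ?_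
  exact abc_poly (Fintype.card (Var n k)) rfl ((forms_iff_rat ℚ L).2 h _) (famQ n k)
    (fun p hp => famQ_ne hp) ε hε

/-- The inequalities with the exponents `η k` for arbitrarily large `k` (for all `n` and `η > 0`) are equivalent to
the case `D = 0` of Vojta's conjecture for the rational projective varieties over any number field. -/
theorem fixAsy_iff_rat (L : Type v) [Field L] [NumberField L] :
    (∀ (n : ℕ) (η : ℝ), 0 < η → ∀ k₀ : ℕ, ∃ k ≥ k₀, FixInt (η * k) n k) ↔ VojtaGaussRat L := by
  constructor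
  · intro h
    exact (sq_iff_rat L).1 fun n => sqInt_iff.1 (sqInt_of_fixInt (h n))
  · intro h n η hη k₀
    refine ⟨k₀ + 1, by omega, fixInt_of_rat L ?_ h n _⟩
    have h1 : (0 : ℝ) < ((k₀ + 1 : ℕ) : ℝ) := by exact_mod_cast Nat.succ_pos k₀
    positivity

/-- For every constant `c > 0` the inequality with the exponent `c` for all `n` and `k` is equivalent to the case
`D = 0` of Vojta's conjecture for the rational projective varieties over any number field. -/
theorem fixInt_iff_rat (L : Type v) [Field L] [NumberField L] {c : ℝ} (hc : 0 < c) :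
    (∀ n k, FixInt c n k) ↔ VojtaGaussRat L := by
  constructor
  · intro h
    refine (sq_iff_rat L).1 fun n => sqInt_iff.1 ?_
    intro ε hε
    obtain ⟨k, hk⟩ := exists_nat_gt ((c + (n + 2)) / ε)
    have h1 : 0 < (c + (n + 2)) / ε := by positivity
    have h2 : (0 : ℝ) < k := h1.trans hk
    refine sq_of_fix hc (by exact_mod_cast h2) ?_ (h n k)
    rw [div_lt_iff₀ hε] at hk
    rw [div_le_iff₀ h2, mul_comm]
    exact hk.le
  · exact fun h n k => fixInt_of_rat L hc h n k

end Pool.Agent.Lib.MP_17a322_nt.FI
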