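import Pool.Agent.Lib.MP_17a322_nt.GE.B1
import Pool.Agent.Lib.MP_17a322_nt.FI.A

/-!
The choice of the digits outside the exceptional set.
-/

namespace Pool.Agent.Lib.MP_17a322_nt.FI

open MvPolynomial
open Pool.Agent.Lib.MP_17a322_nt.GQ

variable {n k : ℕ}

/-- The variables other than the digits with the number `0`. -/
private abbrev V' (n k : ℕ) : Type := Option (Fin (n + 1) × Fin k)

/-- The variables `w_i0` are replaced by `x_i - ∑_(j ≥ 1) w_ij u ^ j`. -/
private noncomputable def P_sub : Var n k → MvPolynomial (V' n k) (MvPolynomial (Fin (n + 1)) ℤ)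
  | none => X none
  | some (i, j) => Fin.cases (C (X i) - ∑ l : Fin k, X (some (i, l)) * X none ^ ((l : ℕ) + 1))
      (fun l => X (some (i, l))) j

private theorem P_eval (G : MvPolynomial (Var n k) ℤ) (x : Fin (n + 1) → ℤ) (v : V' n k → ℤ) (z : Var n k → ℤ)
    (h0 : z none = v none) (h1 : ∀ i l, z (some (i, Fin.succ l)) = v (some (i, l)))
    (h2 : ∀ i, ∑ j : Fin (k + 1), z (some (i, j)) * z none ^ (j : ℕ) = x i) :
    eval v (map (eval x) (aeval P_sub G)) = eval z G := by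
  induction G using MvPolynomial.induction_on with
  | C a => simp
  | add p q hp hq => rw [map_add, map_add, map_add, map_add, hp, hq]
  | mul_X p a hp =>
    rw [map_mul, map_mul, map_mul, map_mul, hp, aeval_X, eval_X]
    congr 1
    cases a with
    | none => rw [P_sub, map_X, eval_X, h0]
    | some ij =>
      obtain ⟨i, j⟩ := ij
      refine Fin.cases ?_ (fun l => ?_) j
      · have h3 := h2 i
        rw [Fin.sum_univ_succ, Fin.val_zero, pow_zero, mul_one] at h3
        have h4 : eval v (map (eval x) (P_sub (some (i, (0 : Fin (k + 1)))) :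
            MvPolynomial (V' n k) (MvPolynomial (Fin (n + 1)) ℤ))) =
            x i - ∑ l : Fin k, v (some (i, l)) * v none ^ ((l : ℕ) + 1) := by
          change eval v (map (eval x) (C (X i) - ∑ l : Fin k, X (some (i, l)) * X none ^ ((l : ℕ) + 1))) = _
          simp only [map_sub, map_C, eval_X, map_sum, map_mul, map_pow, map_X, eval_C]
        rw [h4, ← h3]
        have h5 : ∑ l : Fin k, v (some (i, l)) * v none ^ ((l : ℕ) + 1) =
            ∑ l : Fin k, z (some (i, l.succ)) * z none ^ ((l.succ : Fin (k + 1)) : ℕ) := by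
          apply Finset.sum_congr rfl
          intro l _
          rw [h1, h0, Fin.val_succ]
        rw [h5]
        ring
      · change eval v (map (eval x) (X (some (i, l)))) = _
        rw [map_X, eval_X, h1]

private theorem P_ne {G : MvPolynomial (Var n k) ℤ} (hG : G ≠ 0) : (aeval P_sub G :
    MvPolynomial (V' n k) (MvPolynomial (Fin (n + 1)) ℤ)) ≠ 0 := by
  intro h
  apply hG
  apply MvPolynomial.funext
  intro z
  have h1 := P_eval G (fun i => ∑ j : Fin (k + 1), z (some (i, j)) * z none ^ (j : ℕ))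
    (fun o => o.elim (z none) fun ij => z (some (ij.1, ij.2.succ))) z rfl (fun _ _ => rfl) fun _ => rfl
  rw [← h1, h, map_zero, map_zero, map_zero]

/-- The value of a form at a multiple of a point. -/
theorem eval_scale {R σ : Type*} [CommRing R] {φ : MvPolynomial σ R} {d : ℕ} (h : φ.IsHomogeneous d) (t : R)
    (w : σ → R) : eval (fun i => t * w i) φ = t ^ d * eval w φ := by
  rw [eval_eq, eval_eq, Finset.mul_sum]
  apply Finset.sum_congr rfl
  intro a ha
  have h2 : ∀ i ∈ a.support, (t * w i) ^ a i = t ^ a i * w i ^ a i := fun i _ => mul_pow _ _ _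
  rw [Finset.prod_congr rfl h2, Finset.prod_mul_distrib, Finset.prod_pow_eq_pow_sum]
  have h3 : d = a.degree := h.degree_eq_sum_deg_support ha
  rw [h3, Finsupp.degree_apply]
  ring

/-- Outside a hypersurface a small multiple of a point is not on another hypersurface. -/
private theorem P_mult {σ : Type*} {a : MvPolynomial σ ℤ} (ha : a ≠ 0) : ∃ (g : MvPolynomial σ ℤ) (B : ℕ),
    (∃ e, g.IsHomogeneous e) ∧ g ≠ 0 ∧ ∀ p : σ → ℤ, eval p g ≠ 0 →
      ∃ m : ℕ, 1 ≤ m ∧ m ≤ B ∧ eval (fun i => (m : ℤ) * p i) a ≠ 0 := by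
  classical
  obtain ⟨e, he⟩ : ∃ e, homogeneousComponent e a ≠ 0 := by
    by_contra hcon
    push Not at hcon
    apply ha
    rw [← sum_homogeneousComponent a]
    exact Finset.sum_eq_zero fun i _ => hcon i
  refine ⟨homogeneousComponent e a, a.totalDegree + 1, ⟨e, homogeneousComponent_isHomogeneous e a⟩, he, ?_⟩
  intro p hp
  obtain ⟨q, hq⟩ : ∃ q : Polynomial ℤ, q = ∑ i ∈ Finset.range (a.totalDegree + 1),
    Polynomial.C (eval p (homogeneousComponent i a)) * Polynomial.X ^ i := ⟨_, rfl⟩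
  have hqe : ∀ m : ℤ, q.eval m = eval (fun i => m * p i) a := by
    intro m
    rw [hq, Polynomial.eval_finsetSum]
    conv_rhs => rw [← sum_homogeneousComponent a, map_sum]
    apply Finset.sum_congr rfl
    intro i _
    rw [Polynomial.eval_mul, Polynomial.eval_C, Polynomial.eval_pow, Polynomial.eval_X,
      eval_scale (homogeneousComponent_isHomogeneous i a), mul_comm]
  have hq0 : q ≠ 0 := by
    intro h
    have h1 := congrArg (fun r => Polynomial.coeff r e) h
    simp only [hq, Polynomial.finsetSum_coeff, Polynomial.coeff_C_mul, Polynomial.coeff_X_pow, mul_ite, mul_one,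
      mul_zero, Polynomial.coeff_zero] at h1
    rw [Finset.sum_ite_eq] at h1
    split_ifs at h1 with h2
    · exact hp h1
    · apply he
      apply homogeneousComponent_eq_zero
      rw [Finset.mem_range] at h2
      omega
  have hdeg : q.natDegree ≤ a.totalDegree := by
    rw [hq]
    apply Polynomial.natDegree_sum_le_of_forall_le
    intro i hi
    refine (Polynomial.natDegree_C_mul_X_pow_le _ _).trans ?_
    rw [Finset.mem_range] at hi
    omega
  by_contra hcon
  push Not at hcon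
  apply hq0
  apply Polynomial.eq_zero_of_natDegree_lt_card_of_eval_eq_zero' q
    ((Finset.Icc 1 (a.totalDegree + 1)).image fun m : ℕ => (m : ℤ))
  · intro m hm
    obtain ⟨m', hm', rfl⟩ := Finset.mem_image.1 hm
    rw [Finset.mem_Icc] at hm'
    rw [hqe]
    exact hcon m' hm'.1 hm'.2
  · rw [Finset.card_image_of_injective _ Nat.cast_injective, Nat.card_Icc]
    omega

/-- The choice of the digits outside the exceptional set. -/
theorem exists_pt (hk : 0 < k) {G' : MvPolynomial (Var n k) ℤ} (hG' : G' ≠ 0) :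
    ∃ (G : MvPolynomial (Fin (n + 1)) ℤ) (B : ℕ), (∃ e, G.IsHomogeneous e) ∧ G ≠ 0 ∧
      ∀ (p : Fin (n + 1) → ℤ) (u₀ : ℤ), eval p G ≠ 0 → 1 ≤ u₀ → (∀ i, |p i| ≤ u₀ ^ k) →
        ∃ (m : ℤ) (q : Var n k → ℤ), m ≠ 0 ∧ |m| ≤ B ∧ u₀ ≤ q none ∧ (∀ o, |q o| ≤ B * u₀) ∧
          xv q = (fun i => m * p i) ∧ eval q G' ≠ 0 := by
  classical
  obtain ⟨F, hF⟩ : ∃ F : MvPolynomial (V' n k) (MvPolynomial (Fin (n + 1)) ℤ), F = aeval P_sub G' := ⟨_, rfl⟩
  have hF0 : F ≠ 0 := hF ▸ P_ne hG'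
  obtain ⟨d, hd⟩ : ∃ d, coeff d F ≠ 0 := by
    by_contra hcon
    push Not at hcon
    apply hF0
    ext1 d
    rw [hcon d, coeff_zero]
  obtain ⟨G, B₁, hGh, hG0, hG⟩ := P_mult hd
  obtain ⟨B₂, hB₂⟩ := GE.exists_digits n k F.totalDegree hk
  refine ⟨G, B₁ * (B₂ + 1), hGh, hG0, fun p u₀ hp hu hpu => ?_⟩
  obtain ⟨m, hm1, hmB, hm⟩ := hG p hp
  have hm0 : (1 : ℤ) ≤ m := by exact_mod_cast hm1
  have hmB' : (m : ℤ) ≤ B₁ := by exact_mod_cast hmB
  have hFm : map (eval fun i => (m : ℤ) * p i) F ≠ 0 := by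
    intro h
    apply hm
    have h1 := congrArg (coeff d) h
    rwa [coeff_map, coeff_zero] at h1
  have hFd : (map (eval fun i => (m : ℤ) * p i) F).totalDegree ≤ F.totalDegree  := by
    unfold totalDegree
    exact Finset.sup_mono (support_map_subset _ _)
  have hu' : 1 ≤ (m : ℤ) * u₀ := one_le_mul_of_one_le_of_one_le hm0 hu
  obtain ⟨u, w, hu1, hu2, hw, hsum, hne⟩ := hB₂ _ hFm hFd (fun i => (m : ℤ) * p i) ((m : ℤ) * u₀) hu' (fun i => by
    rw [abs_mul, mul_pow, abs_of_nonneg (zero_le_one.trans hm0)]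
    have h1 : (m : ℤ) ≤ (m : ℤ) ^ k := le_self_pow₀ hm0 hk.ne'
    exact mul_le_mul h1 (hpu i) (abs_nonneg _) (pow_nonneg (zero_le_one.trans hm0) _))
  obtain ⟨q, hq0, hq1⟩ : ∃ q : Var n k → ℤ, q none = u ∧ ∀ i j, q (some (i, j)) = w i j :=
    ⟨fun o => o.elim u fun ij => w ij.1 ij.2, rfl, fun _ _ => rfl⟩
  have hu0 : (0 : ℤ) ≤ u₀ := by omega
  have hmu : (m : ℤ) * u₀ ≤ B₁ * u₀ := mul_le_mul_of_nonneg_right hmB' hu0
  have hB0 : (0 : ℤ) ≤ B₂ := Int.natCast_nonneg _
  have hB1 : (0 : ℤ) ≤ B₁ := Int.natCast_nonneg _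
  have hB : (B₂ : ℤ) * (m * u₀) ≤ ((B₁ * (B₂ + 1) : ℕ) : ℤ) * u₀ := by
    have h2 : (B₂ : ℤ) * (m * u₀) ≤ B₂ * (B₁ * u₀) := mul_le_mul_of_nonneg_left hmu hB0
    have h3 : (0 : ℤ) ≤ B₁ * u₀ := mul_nonneg hB1 hu0
    have h4 : ((B₁ * (B₂ + 1) : ℕ) : ℤ) * u₀ = B₂ * (B₁ * u₀) + B₁ * u₀ := by
      push_cast
      ring
    rw [h4]
    linarith
  have hsum' : ∀ i, ∑ j : Fin (k + 1), q (some (i, j)) * q none ^ (j : ℕ) = (m : ℤ) * p i := by
    intro i
    rw [← hsum i, hq0]
    exact Finset.sum_congr rfl fun j _ => by rw [hq1]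
  refine ⟨m, q, ?_, ?_, ?_, ?_, ?_, ?_⟩
  · intro h
    rw [h] at hm0
    exact absurd hm0 (by norm_num)
  · rw [abs_of_nonneg (by linarith)]
    push_cast
    have h5 : (0 : ℤ) ≤ (B₁ : ℤ) * B₂ := mul_nonneg hB1 hB0
    linarith
  · rw [hq0]
    have h6 : u₀ ≤ (m : ℤ) * u₀ := le_mul_of_one_le_left hu0 hm0
    exact h6.trans hu1
  · intro o
    cases o with
    | none =>
      rw [hq0, abs_of_nonneg ((zero_le_one.trans hu').trans hu1)]
      exact hu2.trans hB
    | some ij =>
      obtain ⟨i, j⟩ := ij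
      rw [hq1]
      exact (hw i j).trans hB
  · funext i
    rw [xv_eq]
    exact hsum' i
  · rw [← P_eval G' (fun i => (m : ℤ) * p i)
      (fun o : V' n k => o.elim u fun ij => w ij.1 ij.2.succ) q hq0 (fun i l => hq1 i l.succ) hsum', ← hF]
    exact hne

end Pool.Agent.Lib.MP_17a322_nt.FI
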